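import Pool.Agent.H33.DT2
import Pool.Agent.H33.DiaDefs

set_option autoImplicit false

namespace Pool.Agent.Results.MP_bff2e5_gt.DiamondCex

open Set Function Topology Pool.Agent.H33.GrothDefs Pool.Agent.H33.DiaDefs

theorem result (h : Diamond) : ∃ (X Y X₁ : Type) (_ : TopologicalSpace X)
    (_ : TopologicalSpace Y) (_ : TopologicalSpace X₁), CompactSpace X ∧ T35Space Y ∧
      LindelofSpace Y ∧ (∃ e : X → Cp Y, IsEmbedding e) ∧ T2Space X₁ ∧
      (∃ g : X → X₁, Continuous g ∧ Surjective g) ∧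
      ∀ (Z : Type) [TopologicalSpace Z] [LindelofSpace Z] (e : X₁ → Cp Z), ¬ IsEmbedding e := by
  obtain ⟨A, hA⟩ := h
  have := unc
  obtain ⟨N, ht, v, R, h⟩ := H33.DT2.sys cnt A hA
  have := H33.DT2.hl cnt h
  obtain ⟨K, K₁, g, h1, h2, h3, h4, h5⟩ := H33.DT2.img cnt h
  exact ⟨K, H33.DT2.X v, K₁, inferInstance, inferInstance, inferInstance,
    isCompact_iff_compactSpace.1 h1, inferInstance, inferInstance,
    ⟨inclusion (s := K) (t := {f | Continuous f}) h2, IsEmbedding.inclusion _⟩, inferInstance,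
    ⟨g, h3, h4⟩, h5⟩

end Pool.Agent.Results.MP_bff2e5_gt.DiamondCex
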